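import Pool.Agent.W989.TN.Stm

set_option autoImplicit false

namespace Pool.Agent.W336.TN.Dia

open Matrix Finset Pool.Agent.W989.TN

theorem t_DIA : DIA := by
  intro ι _ _ p _ f
  classical
  let ψ : ∀ i, AddChar (ZMod (p i)) ℂ := fun i => ZMod.stdAddChar (N := p i)
  have hP : ((∏ i, (p i : ℂ)) : ℂ) ≠ 0 :=
    Finset.prod_ne_zero_iff.2 fun i _ => by exact_mod_cast NeZero.ne (p i)
  refine ⟨fun i u v => ψ i (v * u), fun i v u => ψ i (-(v * u)),
    fun a => (∏ i, (p i : ℂ))⁻¹ * ∑ t, f t * ∏ i, ψ i (-(a i * t i)), ?_⟩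
  intro x y
  have key : ∀ t : (∀ i, ZMod (p i)), ∑ a : (∀ i, ZMod (p i)),
      ∏ i, ψ i (a i * (x i - y i - t i)) = if t = x - y then ∏ i, (p i : ℂ) else 0 := by
    intro t
    have h1 : ∑ a : (∀ i, ZMod (p i)), ∏ i, ψ i (a i * (x i - y i - t i))
        = ∏ i, ∑ v : ZMod (p i), ψ i (v * (x i - y i - t i)) := by
      rw [Finset.prod_univ_sum (fun i => (Finset.univ : Finset (ZMod (p i))))
        (fun i v => ψ i (v * (x i - y i - t i))), Fintype.piFinset_univ]
    rw [h1]
    have h2 : ∀ i, ∑ v : ZMod (p i), ψ i (v * (x i - y i - t i))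
        = if x i - y i - t i = 0 then (p i : ℂ) else 0 := by
      intro i
      have := AddChar.sum_mulShift (ψ := ψ i) (x i - y i - t i)
        (ZMod.isPrimitive_stdAddChar (p i))
      rw [this, ZMod.card]
      split_ifs <;> simp
    rw [Finset.prod_congr rfl fun i _ => h2 i]
    by_cases ht : t = x - y
    · rw [if_pos ht]
      refine Finset.prod_congr rfl fun i _ => ?_
      rw [if_pos]
      rw [ht]; simp
    · rw [if_neg ht]
      have : ∃ i, t i ≠ (x - y) i := by
        by_contra h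
        push Not at h
        exact ht (funext h)
      obtain ⟨i, hi⟩ := this
      apply Finset.prod_eq_zero (Finset.mem_univ i)
      rw [if_neg]
      intro h
      apply hi
      rw [Pi.sub_apply]
      exact (sub_eq_zero.1 h).symm
  have expand : ∀ a : (∀ i, ZMod (p i)),
      (∏ i, ψ i (a i * x i)) * ((∏ i, (p i : ℂ))⁻¹ * ∑ t, f t * ∏ i, ψ i (-(a i * t i))) *
        ∏ i, ψ i (-(a i * y i))
      = (∏ i, (p i : ℂ))⁻¹ * ∑ t, f t * ∏ i, ψ i (a i * (x i - y i - t i)) := by
    intro a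
    have h3 : ∀ t : (∀ i, ZMod (p i)), ∏ i, ψ i (a i * (x i - y i - t i))
        = (∏ i, ψ i (a i * x i)) * (∏ i, ψ i (-(a i * t i))) * ∏ i, ψ i (-(a i * y i)) := by
      intro t
      rw [← Finset.prod_mul_distrib, ← Finset.prod_mul_distrib]
      refine Finset.prod_congr rfl fun i _ => ?_
      rw [← AddChar.map_add_eq_mul, ← AddChar.map_add_eq_mul]
      congr 1; ring
    simp only [h3]
    rw [Finset.mul_sum, Finset.mul_sum, Finset.mul_sum, Finset.sum_mul]
    refine Finset.sum_congr rfl fun t _ => ?_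
    ring
  calc f (x - y) = (∏ i, (p i : ℂ))⁻¹ * ∑ t, f t * (if t = x - y then ∏ i, (p i : ℂ) else 0) := by
        simp only [mul_ite, mul_zero, Finset.sum_ite_eq', Finset.mem_univ, if_true]
        field_simp
    _ = (∏ i, (p i : ℂ))⁻¹ * ∑ t, f t * ∑ a : (∀ i, ZMod (p i)),
          ∏ i, ψ i (a i * (x i - y i - t i)) := by
        simp only [key]
    _ = ∑ a : (∀ i, ZMod (p i)), (∏ i, (p i : ℂ))⁻¹ *
          ∑ t, f t * ∏ i, ψ i (a i * (x i - y i - t i)) := by
        simp only [Finset.mul_sum]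
        rw [Finset.sum_comm]
    _ = _ := by
        refine Finset.sum_congr rfl fun a _ => ?_
        exact (expand a).symm

end Pool.Agent.W336.TN.Dia
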